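import Pool.Agent.W221.NS.Stm3

/-!
Separated singular points of periodic solutions (helper919, for project MF of helper221).
-/

open MeasureTheory Set Metric Filter Topology
open scoped ContDiff ENNReal

namespace W919.MF

open H459R3.NS W221.NS

theorem energy_nonneg (v : V → V) : 0 ≤ energy v :=
  Finset.sum_nonneg fun _ _ => integral_nonneg fun _ => sq_nonneg _

theorem enstrophy_nonneg (v : V → V) : 0 ≤ enstrophy v :=
  Finset.sum_nonneg fun _ _ => Finset.sum_nonneg fun _ _ => integral_nonneg fun _ => sq_nonneg _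

theorem spv_of_isSol {ν T : ℝ} {u : ℝ → V → V} {p : ℝ → V → ℝ} (h : IsSol ν T u p) {t : ℝ}
    (ht : t ∈ Ico 0 T) : SPV (u t) := by
  refine ⟨?_, h.per_u t ht⟩
  have h1 : ContDiff ℝ ∞ (fun x : V => (t, x)) := contDiff_const.prodMk contDiff_id
  have h2 : ContDiffOn ℝ ∞ (fun x : V => u t x) univ :=
    h.smooth_u.comp (f := fun x : V => (t, x)) h1.contDiffOn (fun x _ => ⟨ht, mem_univ _⟩)
  exact contDiffOn_univ.1 h2

theorem norm_le_of_cube {x : V} (hx : x ∈ cube) : ‖x‖ ≤ 1 := by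
  rw [pi_norm_le_iff_of_nonneg zero_le_one]
  intro i
  have h0 : (0 : ℝ) ≤ x i := hx.1 i
  have h1 : x i ≤ 1 := hx.2 i
  rw [Real.norm_eq_abs, abs_of_nonneg h0]
  exact h1

theorem sing_cut {T : ℝ} {u : ℝ → V → V} {x : V} (hx : x ∈ cube) (h : Sing T u x) :
    Sing T (fun t x => zt x • u t x) x := by
  intro δ hδ B
  obtain ⟨t, ht, y, hy, hB⟩ := h (min δ 1) (lt_min hδ one_pos) B
  refine ⟨t, ⟨?_, ht.2⟩, y, ?_, ?_⟩
  · have := ht.1
    have h2 := min_le_left δ 1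
    linarith
  · exact ball_subset_ball (min_le_left δ 1) hy
  · have hy2 : y ∈ closedBall (0 : V) zt.rIn := by
      have h3 : dist y x < 1 := lt_of_lt_of_le hy (min_le_right δ 1)
      have h4 := norm_le_of_cube hx
      rw [mem_closedBall, dist_zero_right]
      have h5 : ‖y‖ ≤ ‖y - x‖ + ‖x‖ := by
        have := norm_add_le (y - x) x
        simpa using this
      rw [dist_eq_norm] at h3
      show ‖y‖ ≤ 3
      linarith
    show B < ‖zt y • u t y‖
    rw [zt.one_of_mem_closedBall hy2, one_smul]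
    exact hB

theorem t_PERI1 (h : S_COUNT2) (h1 : S_PERL) (h2 : S_PERE) (h3 : S_ENST) : S_PERI1 := by
  obtain ⟨C₂, hC₂, h⟩ := h
  obtain ⟨C₁, hC₁, h1⟩ := h1
  refine ⟨4 * C₂ ^ 2 * C₁ ^ 2 + 4 * C₂ + 216 * C₂, by positivity, ?_⟩
  intro T u p hT hu r hr hCr hrT S hS hsep
  set e := energy (u 0) with he
  have he0 : 0 ≤ e := energy_nonneg _
  set κ := C₁ * √e with hκ
  have hκ0 : 0 ≤ κ := by positivity
  have hL := h1 T u p hT hu
  have hr4 : (0 : ℝ) < 4 * r := by positivity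
  -- the smallness conditions
  have hsq : (C₂ * κ * √(4 * r)) ^ 2 ≤ 1 := by
    have e1 : (C₂ * κ * √(4 * r)) ^ 2 = 4 * C₂ ^ 2 * C₁ ^ 2 * e * r := by
      rw [mul_pow, mul_pow, hκ, mul_pow, Real.sq_sqrt he0, Real.sq_sqrt hr4.le]
      ring
    rw [e1]
    have e2 : 4 * C₂ ^ 2 * C₁ ^ 2 * e * r
        ≤ (4 * C₂ ^ 2 * C₁ ^ 2 + 4 * C₂ + 216 * C₂) * (1 + e) * r := by
      have h5 : 0 ≤ 4 * C₂ ^ 2 * C₁ ^ 2 * r := by positivity
      have h6 : 0 ≤ (4 * C₂ + 216 * C₂) * (1 + e) * r := by positivity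
      nlinarith
    linarith
  have hc1 : C₂ * κ * √(4 * r) ≤ 1 := by
    have h5 : 0 ≤ C₂ * κ * √(4 * r) := by positivity
    nlinarith
  have hc2 : C₂ * (4 * r) ≤ 1 := by
    have h5 : 0 ≤ 4 * C₂ ^ 2 * C₁ ^ 2 * (1 + e) * r := by positivity
    have h6 : 0 ≤ 216 * C₂ * (1 + e) * r := by positivity
    have h7 : 0 ≤ 4 * C₂ * e * r := by positivity
    nlinarith
  have key := h T κ κ (ball 0 3) (fun t x => zt x • u t x) (fun t x => zt x * p t x) hκ0 hκ0 hL
    (4 * r) hr4 (by nlinarith) hc1 S (fun x hx => sing_cut (hS x hx).1 (hS x hx).2)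
    (fun x hx => by
      intro y hy
      have h5 := norm_le_of_cube (hS x hx).1
      rw [mem_ball, dist_eq_norm] at hy
      rw [mem_ball, dist_zero_right]
      have h6 : ‖y‖ ≤ ‖y - x‖ + ‖x‖ := by
        have := norm_add_le (y - x) x
        simpa using this
      have h7 : C₂ * (4 * r + κ * √(4 * r)) = C₂ * (4 * r) + C₂ * κ * √(4 * r) := by ring
      rw [h7] at hy
      linarith)
    (fun x hx y hy hxy => by
      have := hsep x hx y hy hxy
      linarith)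
  have hint : IntegrableOn (fun t => enstrophy (u t)) (Ioo (T - 32 * r ^ 2) T) :=
    (h3 1 T u p one_pos hT hu).mono_set (Ioo_subset_Ioo_left (by linarith))
  have hset : T - 2 * (4 * r) ^ 2 = T - 32 * r ^ 2 := by ring
  rw [hset] at key
  have hb : (∫⁻ τ in Ioo (T - 32 * r ^ 2) T, ∫⁻ y in ball (0 : V) 3,
      ENNReal.ofReal (gsq (fun x => zt x • u τ x) y))
      ≤ ENNReal.ofReal (∫ τ in Ioo (T - 32 * r ^ 2) T, 216 * enstrophy (u τ)) := by
    rw [ofReal_integral_eq_lintegral_ofReal (hint.const_mul 216)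
      (Filter.Eventually.of_forall fun τ => mul_nonneg (by norm_num) (enstrophy_nonneg _))]
    refine setLIntegral_mono' measurableSet_Ioo fun τ hτ => ?_
    exact h2 (u τ) (spv_of_isSol hu ⟨by linarith [hτ.1], hτ.2⟩)
  have hfin : ENNReal.ofReal (S.card * (4 * r))
      ≤ ENNReal.ofReal (C₂ * ∫ τ in Ioo (T - 32 * r ^ 2) T, 216 * enstrophy (u τ)) := by
    rw [ENNReal.ofReal_mul hC₂.le]
    exact key.trans (mul_le_mul_right hb _)
  rw [integral_const_mul] at hfin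
  have hI : 0 ≤ ∫ τ in Ioo (T - 32 * r ^ 2) T, enstrophy (u τ) :=
    integral_nonneg fun _ => enstrophy_nonneg _
  rw [ENNReal.ofReal_le_ofReal_iff (by positivity)] at hfin
  have hcard : (0 : ℝ) ≤ S.card := Nat.cast_nonneg _
  have h8 : (S.card : ℝ) * r ≤ S.card * (4 * r) := by nlinarith [mul_nonneg hcard hr.le]
  have h9 : C₂ * (216 * ∫ τ in Ioo (T - 32 * r ^ 2) T, enstrophy (u τ))
      ≤ (4 * C₂ ^ 2 * C₁ ^ 2 + 4 * C₂ + 216 * C₂) *
        ∫ τ in Ioo (T - 32 * r ^ 2) T, enstrophy (u τ) := by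
    have h10 : 0 ≤ (4 * C₂ ^ 2 * C₁ ^ 2 + 4 * C₂) *
        ∫ τ in Ioo (T - 32 * r ^ 2) T, enstrophy (u τ) := by positivity
    linarith
  linarith

end W919.MF
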